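import Pool.Agent.R756.CH.Main

/-!
# Average heights, balance constant and automorphisms
-/

set_option autoImplicit false

open Finset
open scoped Classical

namespace Pool.Agent.R756.CH

open Pool.Agent.TH161.LW Pool.Agent.Y491.BF Pool.Agent.H13R3.WB

section

variable {α : Type} [Fintype α] [PartialOrder α]

lemma LE_card_eq : (Y491.BF.LE α).card = eN α := by
  rw [eN_eq]
  rfl

lemma LE_card_pos : (0 : ℝ) < (Y491.BF.LE α).card := by
  rw [LE_card_eq]
  exact_mod_cast Pool.Agent.TH161.KS.eN_pos α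

lemma prob_rev_eq (x y : α) :
    prob α y x = (nn (fun σ => gap x y σ < 0) : ℝ) / (Y491.BF.LE α).card := by
  have h1 : prob α y x = (eP α y x : ℝ) / eN α := by
    unfold prob eP eN
    have h : ∀ f : α ≃ Fin (Fintype.card α), Monotone ⇑f ↔ StrictMono ⇑f := fun f =>
      ⟨fun h => h.strictMono_of_injective f.injective, fun h => h.monotone⟩
    simp only [h]
  rw [h1, LE_card_eq, eP_eq]
  congr 2
  unfold nn Y491.BF.LE
  rw [Finset.filter_filter]
  congr 1
  ext σ
  simp only [Finset.mem_filter, Finset.mem_univ, true_and]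
  constructor
  · rintro ⟨h1, h2⟩
    refine ⟨h1, ?_⟩
    rw [Fin.lt_def] at h2
    unfold gap
    omega
  · rintro ⟨h1, h2⟩
    refine ⟨h1, ?_⟩
    rw [Fin.lt_def]
    unfold gap at h2
    omega

lemma sum_gap_eq (x y : α) :
    ∑ f ∈ Y491.BF.LE α, (((f y : ℕ) : ℝ) - ((f x : ℕ) : ℝ)) =
      (avgHeight α y - avgHeight α x) * (Y491.BF.LE α).card := by
  rw [avgHeight_eq, avgHeight_eq, Finset.sum_sub_distrib]
  have := LE_card_pos (α := α)
  field_simp

/-- two incomparable elements -/
theorem prob_ge {x y : α} (hxy : ¬ x ≤ y) (hyx : ¬ y ≤ x) :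
    Real.exp (-1 - |avgHeight α x - avgHeight α y|) ≤ prob α y x := by
  have hE := LE_card_pos (α := α)
  have h := main_ineq hxy hyx (d := |avgHeight α x - avgHeight α y|) (by
    rw [sum_gap_eq]
    refine mul_le_mul_of_nonneg_right ?_ hE.le
    rw [abs_sub_comm]
    exact le_abs_self _) (abs_nonneg _)
  rw [prob_rev_eq, le_div_iff₀ hE]
  set d := |avgHeight α x - avgHeight α y| with hd
  have h1 : Real.exp (-1 - d) * Real.exp (1 + d) = 1 := by
    rw [← Real.exp_add]
    have : (-1 - d) + (1 + d) = 0 := by ring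
    rw [this, Real.exp_zero]
  calc Real.exp (-1 - d) * ((Y491.BF.LE α).card : ℝ)
      ≤ Real.exp (-1 - d) * ((nn fun σ : α ≃ Fin (Fintype.card α) => gap x y σ < 0 : ℕ) *
          Real.exp (1 + d)) := mul_le_mul_of_nonneg_left h (Real.exp_pos _).le
    _ = (nn fun σ : α ≃ Fin (Fintype.card α) => gap x y σ < 0 : ℕ) *
          (Real.exp (-1 - d) * Real.exp (1 + d)) := by ring
    _ = _ := by rw [h1, mul_one]

lemma min_le_balance (x y : α) : min (prob α x y) (prob α y x) ≤ balance α := by
  unfold balance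
  exact le_ciSup (f := fun p : α × α => min (prob α p.1 p.2) (prob α p.2 p.1))
    (Set.finite_range _).bddAbove (x, y)

/-- comparable elements have average heights at distance at least one -/
lemma one_le_of_lt {x y : α} (h : x < y) : 1 ≤ avgHeight α y - avgHeight α x := by
  have hE := LE_card_pos (α := α)
  have h1 := sum_gap_eq x y
  have h2 : ((Y491.BF.LE α).card : ℝ) ≤
      ∑ f ∈ Y491.BF.LE α, (((f y : ℕ) : ℝ) - ((f x : ℕ) : ℝ)) := by
    rw [Finset.card_eq_sum_ones]
    push_cast
    refine Finset.sum_le_sum fun f hf => ?_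
    have h3 := SH.mem_LE.mp hf h
    rw [Fin.lt_def] at h3
    have : ((f x : ℕ) : ℝ) + 1 ≤ ((f y : ℕ) : ℝ) := by exact_mod_cast h3
    linarith
  rw [h1] at h2
  by_contra hcon
  push Not at hcon
  nlinarith

/-- two elements with close average heights -/
theorem balance_ge {x y : α} (hne : x ≠ y) (hd : |avgHeight α x - avgHeight α y| < 1) :
    Real.exp (-1 - |avgHeight α x - avgHeight α y|) ≤ balance α := by
  have hxy : ¬ x ≤ y := by
    intro h
    have h1 := one_le_of_lt (lt_of_le_of_ne h hne)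
    rw [abs_sub_comm] at hd
    linarith [le_abs_self (avgHeight α y - avgHeight α x)]
  have hyx : ¬ y ≤ x := by
    intro h
    have h1 := one_le_of_lt (lt_of_le_of_ne h hne.symm)
    linarith [le_abs_self (avgHeight α x - avgHeight α y)]
  refine le_trans (le_min ?_ (prob_ge hxy hyx)) (min_le_balance x y)
  have := prob_ge hyx hxy
  rwa [abs_sub_comm] at this

/-- the average height is invariant under automorphisms -/
lemma avgHeight_auto (φ : α ≃o α) (x : α) : avgHeight α (φ x) = avgHeight α x := by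
  rw [avgHeight_eq, avgHeight_eq]
  congr 1
  refine Finset.sum_nbij' (fun f => φ.toEquiv.trans f) (fun f => φ.symm.toEquiv.trans f)
    ?_ ?_ ?_ ?_ ?_
  · intro f hf
    rw [SH.mem_LE] at hf ⊢
    exact fun a b hab => hf (φ.lt_iff_lt.mpr hab)
  · intro f hf
    rw [SH.mem_LE] at hf ⊢
    exact fun a b hab => hf (φ.symm.lt_iff_lt.mpr hab)
  · intro f _
    ext a
    simp
  · intro f _
    ext a
    simp
  · intro f _
    rfl

/-- posets with a nontrivial automorphism -/
theorem balance_auto (φ : α ≃o α) (hφ : ∃ x, φ x ≠ x) : Real.exp (-1) ≤ balance α := by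
  obtain ⟨x, hx⟩ := hφ
  have h := balance_ge (α := α) hx (by rw [avgHeight_auto, sub_self, abs_zero]; norm_num)
  rwa [avgHeight_auto, sub_self, abs_zero, sub_zero] at h

end

lemma exp_ge : (1 : ℝ) / 3 + 1 / 30 < Real.exp (-1) := by
  rw [Real.exp_neg]
  have h := Real.exp_one_lt_d9
  have hp := Real.exp_pos 1
  rw [lt_inv_comm₀ (by norm_num) hp]
  refine h.trans ?_
  norm_num

lemma exp_ge2 : (1 : ℝ) / 3 + 1 / 70 < Real.exp (-1 - 1 / 20) := by
  have h1 : Real.exp (-1 - 1 / 20) = Real.exp (-1) * Real.exp (-(1 / 20)) := by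
    rw [← Real.exp_add]; ring_nf
  have h2 : (1 : ℝ) - 1 / 20 ≤ Real.exp (-(1 / 20)) := by
    have := Real.add_one_le_exp (-(1 / 20) : ℝ)
    linarith
  have h3 := exp_ge
  rw [h1]
  nlinarith [Real.exp_pos (-1 : ℝ)]

/-- an explicit gap for close heights -/
theorem balance_gap {α : Type} [Fintype α] [PartialOrder α] {x y : α} (hne : x ≠ y)
    (hd : |avgHeight α x - avgHeight α y| ≤ 1 / 20) : (1 : ℝ) / 3 + 1 / 70 ≤ balance α := by
  refine (exp_ge2.le.trans (Real.exp_le_exp.mpr ?_)).trans (balance_ge hne (by linarith))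
  linarith

end Pool.Agent.R756.CH
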