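import Pool.Agent.R756.CH.Sharp
import Pool.Agent.TH161.KS.Main

/-!
# Elements of nearly equal average height are nearly balanced
-/

set_option autoImplicit false

open Finset
open scoped Classical

namespace Pool.Agent.R756.CH

open Pool.Agent.TH161.LW Pool.Agent.Y491.BF Pool.Agent.H13R3.WB

/-- The average height of `x` in the finite poset `P`: the average over all linear extensions of the
number of elements before `x`.  (A linear extension is a monotone bijection from `P` to the numbers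
smaller than `|P|`.) -/
noncomputable def avgHeight (P : Type) [Fintype P] [PartialOrder P] (x : P) : ℝ :=
  (∑ f ∈ univ.filter (fun f : P ≃ Fin (Fintype.card P) => Monotone ⇑f), ((f x : ℕ) : ℝ)) /
    ((univ.filter (fun f : P ≃ Fin (Fintype.card P) => Monotone ⇑f)).card : ℝ)

section

variable {α : Type} [Fintype α] [PartialOrder α]

lemma filter_eq_LE : (univ.filter fun f : α ≃ Fin (Fintype.card α) => Monotone ⇑f) = Y491.BF.LE α := by
  unfold Y491.BF.LE
  refine Finset.filter_congr fun f _ => ?_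
  exact ⟨fun h => h.strictMono_of_injective f.injective, fun h => h.monotone⟩

lemma avgHeight_eq (x : α) :
    avgHeight α x = (∑ f ∈ Y491.BF.LE α, ((f x : ℕ) : ℝ)) / ((Y491.BF.LE α).card : ℝ) := by
  unfold avgHeight
  rw [filter_eq_LE]

lemma Tp_sub (x y : α) : Tp x y - Tp y x = ∑ f ∈ Y491.BF.LE α, (((f y : ℕ) : ℝ) - ((f x : ℕ) : ℝ)) := by
  unfold Tp
  rw [← Finset.sum_sub_distrib]
  refine Finset.sum_congr rfl fun f _ => ?_
  have h1 : ((gap x y f : ℤ) : ℝ) = ((f y : ℕ) : ℝ) - ((f x : ℕ) : ℝ) := by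
    unfold gap; push_cast; ring
  have h2 : ((gap y x f : ℤ) : ℝ) = -(((f y : ℕ) : ℝ) - ((f x : ℕ) : ℝ)) := by
    unfold gap; push_cast; ring
  rw [h1, h2]
  rcases le_total 0 (((f y : ℕ) : ℝ) - ((f x : ℕ) : ℝ)) with h | h
  · rw [max_eq_left h, max_eq_right (by linarith)]; ring
  · rw [max_eq_right h, max_eq_left (by linarith)]; ring

/-- a copy of `α` -/
@[ext] structure W (x y : α) where
  /-- the element -/
  val : α

/-- the order generated by the order of `α` and `y ≤ x` (if `¬ x ≤ y`) -/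
instance (x y : α) : PartialOrder (W x y) where
  le a b := a.val ≤ b.val ∨ (a.val ≤ y ∧ x ≤ b.val ∧ ¬ x ≤ y)
  le_refl a := Or.inl le_rfl
  le_trans := by
    rintro a b c (h1 | h1) (h2 | h2)
    · exact Or.inl (h1.trans h2)
    · exact Or.inr ⟨h1.trans h2.1, h2.2⟩
    · exact Or.inr ⟨h1.1, h1.2.1.trans h2, h1.2.2⟩
    · exact Or.inr ⟨h1.1, h2.2⟩
  le_antisymm := by
    rintro a b (h1 | h1) (h2 | h2)
    · exact W.ext (le_antisymm h1 h2)
    · exact absurd (h2.2.1.trans (h1.trans h2.1)) h2.2.2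
    · exact absurd (h1.2.1.trans (h2.trans h1.1)) h1.2.2
    · exact absurd (h1.2.1.trans h2.1) h1.2.2

/-- the obvious bijection -/
def W.equiv (x y : α) : W x y ≃ α where
  toFun a := a.val
  invFun a := ⟨a⟩
  left_inv _ := rfl
  right_inv _ := rfl

noncomputable instance (x y : α) : Fintype (W x y) := Fintype.ofEquiv α (W.equiv x y).symm

/-- there is a linear extension with `y` before `x` -/
lemma exists_rev {x y : α} (hxy : ¬ x ≤ y) : 0 < nn (fun σ => gap x y σ < 0) := by
  have hc : Fintype.card (W x y) = Fintype.card α := Fintype.card_congr (W.equiv x y)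
  have h := Pool.Agent.TH161.KS.eN_pos (W x y)
  unfold eN at h
  rw [Nat.card_pos_iff] at h
  obtain ⟨⟨⟨σ, hσ⟩⟩, -⟩ := h
  have hyx : (⟨y⟩ : W x y) < ⟨x⟩ := by
    refine lt_of_le_of_ne (Or.inr ⟨le_rfl, le_rfl, hxy⟩) ?_
    intro h
    have : y = x := congrArg W.val h
    exact hxy this.ge
  have h1 : σ ⟨y⟩ < σ ⟨x⟩ := hσ hyx
  unfold nn
  refine Finset.card_pos.mpr ⟨((W.equiv x y).symm.trans σ).trans (finCongr hc), ?_⟩
  simp only [mem_filter]
  refine ⟨SH.mem_LE.mpr fun a b hab => ?_, ?_⟩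
  · have h2 : (⟨a⟩ : W x y) < ⟨b⟩ := by
      refine lt_of_le_of_ne (Or.inl hab.le) ?_
      intro h
      exact hab.ne (congrArg W.val h)
    have h3 : σ ⟨a⟩ < σ ⟨b⟩ := hσ h2
    rw [Fin.lt_def] at h3 ⊢
    exact h3
  · rw [Fin.lt_def] at h1
    unfold gap
    have e1 : ((((W.equiv x y).symm.trans σ).trans (finCongr hc)) y : ℕ) = σ ⟨y⟩ := rfl
    have e2 : ((((W.equiv x y).symm.trans σ).trans (finCongr hc)) x : ℕ) = σ ⟨x⟩ := rfl
    rw [e1, e2]
    omega

lemma nn_total {x y : α} (hne : x ≠ y) :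
    (nn (fun σ => 0 < gap x y σ) : ℝ) + nn (fun σ => gap x y σ < 0) = (Y491.BF.LE α).card := by
  unfold nn
  rw [← Nat.cast_add]
  norm_cast
  rw [← Finset.card_union_of_disjoint]
  · congr 1
    ext σ
    simp only [mem_union, mem_filter]
    constructor
    · rintro (h | h) <;> exact h.1
    · intro h
      have h3 : σ x ≠ σ y := fun h => hne (σ.injective h)
      have h4 : (σ x : ℕ) ≠ (σ y : ℕ) := fun h => h3 (Fin.ext h)
      unfold gap
      rcases lt_or_gt_of_ne h4 with h5 | h5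
      · left; exact ⟨h, by omega⟩
      · right; exact ⟨h, by omega⟩
  · rw [Finset.disjoint_left]
    intro σ h1 h2
    simp only [mem_filter] at h1 h2
    have a := h1.2
    have b := h2.2
    omega

lemma nn_gap_one_le {x y : α} (hxy : ¬ x ≤ y) (hyx : ¬ y ≤ x) :
    nn (fun σ => gap x y σ = 1) ≤ nn (fun σ => gap x y σ < 0) := by
  have h := SH.t_SWAP α x y hxy hyx (fun _ => True)
  simp only [and_true] at h
  rw [h]
  unfold nn
  refine Finset.card_le_card fun σ hσ => ?_
  simp only [mem_filter] at hσ ⊢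
  exact ⟨hσ.1, by omega⟩

/-- the main inequality -/
theorem main_ineq {x y : α} (hxy : ¬ x ≤ y) (hyx : ¬ y ≤ x) {d : ℝ}
    (hd : ∑ f ∈ Y491.BF.LE α, (((f y : ℕ) : ℝ) - ((f x : ℕ) : ℝ)) ≤ d * (Y491.BF.LE α).card) (hd0 : 0 ≤ d) :
    ((Y491.BF.LE α).card : ℝ) ≤ nn (fun σ => gap x y σ < 0) * Real.exp (1 + d) := by
  have hne : x ≠ y := fun h => hxy h.le
  have h1 := sharp_L3 ASY.t_ASY α x y hxy hyx (1 + d) (by linarith)
  have h2 := L1.t_L1 ASY.t_ASY α x y hxy hyx
  have h3 := Tp_sub x y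
  have h4 := nn_total hne
  have h5 : (nn (fun σ => gap x y σ = 1) : ℝ) ≤ nn (fun σ => gap x y σ < 0) := by
    exact_mod_cast nn_gap_one_le hxy hyx
  have h6 : (0 : ℝ) < nn (fun σ => gap x y σ < 0) := by exact_mod_cast exists_rev hxy
  set A : ℝ := (nn (fun σ => gap x y σ = 1) : ℝ) with hA
  set Ap : ℝ := (nn (fun σ => 0 < gap x y σ) : ℝ) with hAp
  set B : ℝ := (nn (fun σ => gap x y σ < 0) : ℝ) with hB
  set E : ℝ := ((Y491.BF.LE α).card : ℝ) with hE
  set n : ℝ := (Fintype.card α : ℝ) with hn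
  have hA0 : 0 ≤ A := by rw [hA]; positivity
  have hn0 : 0 ≤ n := by rw [hn]; positivity
  have hE0 : 0 ≤ E := by rw [hE]; positivity
  have h7 : Tp x y ≤ Tp y x + d * E := by linarith
  have h8 : A * Tp x y * n ≤ A * Tp y x * n + A * (d * E) * n := by
    have := mul_le_mul_of_nonneg_left h7 (mul_nonneg hA0 hn0)
    nlinarith
  have h9 : A * (d * E) * n ≤ B * (d * E) * (n + 1) := by
    have hdE : 0 ≤ d * E := mul_nonneg hd0 hE0
    calc A * (d * E) * n ≤ B * (d * E) * n :=
          mul_le_mul_of_nonneg_right (mul_le_mul_of_nonneg_right h5 hdE) hn0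
      _ ≤ B * (d * E) * (n + 1) :=
          mul_le_mul_of_nonneg_left (by linarith) (mul_nonneg h6.le hdE)
  have h10 : B * ((1 + d) * Ap - B * (Real.exp (1 + d) - 1 - (1 + d))) * (n + 1) ≤
      B * (B + d * E) * (n + 1) := by nlinarith
  have h11 : (1 + d) * Ap - B * (Real.exp (1 + d) - 1 - (1 + d)) ≤ B + d * E := by
    have h12 := le_of_mul_le_mul_right h10 (by linarith)
    exact le_of_mul_le_mul_left h12 h6
  have h13 : Ap = E - B := by linarith
  rw [h13] at h11
  nlinarith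

end

end Pool.Agent.R756.CH
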