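import Pool.Agent.Y491.BF.T_L3
import Pool.Agent.Y491.BF.T_L1
import Pool.Agent.Y491.BF.T_ASY
import Pool.Agent.Y491.BF.T_SH
import Pool.Agent.H13R3.WB.Lin

/-!
# Elements of nearly equal average height: the inequalities for the gap

The sharp form of step `L3` of project BF (the proof is the one given there, without the last
estimate), and its combination with step `L1`.
-/

set_option autoImplicit false

open Finset Filter Topology
open scoped Classical

namespace Pool.Agent.R756.CH

open Pool.Agent.TH161.LW Pool.Agent.Y491.BF Pool.Agent.Y491.BF.L3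

/-- step `L3` with the sharp factor `n / (n + 1)` -/
theorem sharp_L3 (hASY : S_ASY) (α : Type) [Fintype α] [PartialOrder α] (x y : α)
    (hxy : ¬ x ≤ y) (hyx : ¬ y ≤ x) (v : ℝ) (hv : 0 ≤ v) :
    (nn (fun σ => gap x y σ < 0) : ℝ) * (v * nn (fun σ => 0 < gap x y σ) -
      nn (fun σ => gap x y σ < 0) * (Real.exp v - 1 - v)) * (Fintype.card α + 1) ≤
    (nn (fun σ => gap x y σ = 1) : ℝ) * Tp x y * Fintype.card α := by
  have : Nonempty α := ⟨x⟩
  obtain ⟨m, hm⟩ : ∃ m, Fintype.card α = m + 1 := ⟨Fintype.card α - 1, by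
    have := Fintype.card_pos (α := α); omega⟩
  obtain ⟨h1, h2, h3⟩ := hASY α x y hxy hyx
  obtain ⟨-, h4, -⟩ := hASY α y x hyx hxy
  rw [nn_swap] at h4
  set A : ℝ := (nn (fun σ => gap x y σ = 1) : ℝ) with hA
  set Ap : ℝ := (nn (fun σ => 0 < gap x y σ) : ℝ) with hAp
  set B : ℝ := (nn (fun σ => gap x y σ < 0) : ℝ) with hB
  have hA0 : 0 ≤ A := by rw [hA]; positivity
  have hB0 : 0 ≤ B := by rw [hB]; positivity
  have hT0 : 0 ≤ Tp x y := by
    unfold Tp
    exact Finset.sum_nonneg fun σ _ => le_max_right _ _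
  rcases hB0.eq_or_lt with hBz | hBpos
  · rw [← hBz, zero_mul, zero_mul]
    positivity
  -- the sequences
  rw [hm] at h1 h2 h3 h4
  simp only [Nat.add_sub_cancel] at h1
  have g1 : Tendsto (fun M : ℕ => G M x y 0 / (M : ℝ) ^ m) atTop (𝓝 (A / (m.factorial : ℝ))) := by
    refine h1.congr fun M => ?_
    rw [G_zero]
  have g4 : Tendsto (fun M : ℕ => S M x y / (M : ℝ) ^ (m + 1)) atTop
      (𝓝 (B / ((m + 1).factorial : ℝ))) := h4
  have g3 : Tendsto (fun M : ℕ => T M x y / (M : ℝ) ^ (m + 1 + 1)) atTop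
      (𝓝 (Tp x y / ((m + 1 + 1).factorial : ℝ))) := h3
  have hinv : Tendsto (fun M : ℕ => (1 : ℝ) / M) atTop (𝓝 0) := tendsto_one_div_atTop_nhds_zero_nat
  have g1' : Tendsto (fun M : ℕ => G M x y 0 / (M : ℝ) ^ (m + 1)) atTop (𝓝 0) := by
    have := g1.mul hinv
    rw [mul_zero] at this
    refine this.congr fun M => ?_
    rw [pow_succ]
    field_simp
  have g2 : Tendsto (fun M : ℕ => P M x y / (M : ℝ) ^ (m + 1)) atTop
      (𝓝 (Ap / ((m + 1).factorial : ℝ))) := by
    have := h2.sub g1'
    rw [sub_zero] at this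
    refine this.congr fun M => ?_
    rw [← sub_div]
    congr 1
    rw [G_zero]
    unfold P
    have hc : ((Om α M).filter fun f => f x ≤ f y).card =
        ((Om α M).filter fun f => f x < f y).card + ((Om α M).filter fun f => f x = f y).card := by
      rw [← Finset.card_union_of_disjoint]
      · congr 1
        ext f
        simp only [mem_union, mem_filter]
        constructor
        · rintro ⟨a, b⟩
          rcases b.lt_or_eq with b | b
          · exact Or.inl ⟨a, b⟩
          · exact Or.inr ⟨a, b⟩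
        · rintro (⟨a, b⟩ | ⟨a, b⟩)
          · exact ⟨a, b.le⟩
          · exact ⟨a, b.le⟩
      · rw [Finset.disjoint_left]
        intro f hf hf'
        have a := (mem_filter.mp hf).2
        have b := (mem_filter.mp hf').2
        omega
    have hc' : (((Om α M).filter fun f => f x ≤ f y).card : ℝ) =
        ((Om α M).filter fun f => f x < f y).card + ((Om α M).filter fun f => f x = f y).card := by
      exact_mod_cast hc
    linarith
  have hfac : (0 : ℝ) < ((m + 1).factorial : ℝ) := by positivity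
  have hBne : B / ((m + 1).factorial : ℝ) ≠ 0 := by positivity
  -- the quotients
  have q0 : Tendsto (fun M : ℕ => G M x y 0 / S M x y) atTop (𝓝 0) := by
    have := g1'.div g4 hBne
    rw [zero_div] at this
    refine this.congr' ?_
    filter_upwards [eventually_ge_atTop 1] with M hM
    have hMp : (0 : ℝ) < (M : ℝ) ^ (m + 1) := by
      have : (0 : ℝ) < M := by exact_mod_cast hM
      positivity
    have hS := S_pos hM x y
    simp only [Pi.div_apply]
    field_simp
  have q1 : Tendsto (fun M : ℕ => P M x y / S M x y) atTop (𝓝 (Ap / B)) := by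
    have := g2.div g4 hBne
    have e : Ap / ((m + 1).factorial : ℝ) / (B / ((m + 1).factorial : ℝ)) = Ap / B := by
      field_simp
    rw [e] at this
    refine this.congr' ?_
    filter_upwards [eventually_ge_atTop 1] with M hM
    have hMp : (0 : ℝ) < (M : ℝ) ^ (m + 1) := by
      have : (0 : ℝ) < M := by exact_mod_cast hM
      positivity
    have hS := S_pos hM x y
    simp only [Pi.div_apply]
    field_simp
  have q2 : Tendsto (fun M : ℕ => G M x y 0 / S M x y * T M x y / S M x y) atTop
      (𝓝 (A / (m.factorial : ℝ) / (B / ((m + 1).factorial : ℝ)) *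
        (Tp x y / ((m + 1 + 1).factorial : ℝ)) / (B / ((m + 1).factorial : ℝ)))) := by
    have := ((g1.div g4 hBne).mul g3).div g4 hBne
    refine this.congr' ?_
    filter_upwards [eventually_ge_atTop 1] with M hM
    have hM0 : (0 : ℝ) < M := by exact_mod_cast hM
    have hS := S_pos hM x y
    simp only [Pi.div_apply]
    have e1 : (M : ℝ) ^ (m + 1) = (M : ℝ) ^ m * M := pow_succ _ _
    have e2 : (M : ℝ) ^ (m + 1 + 1) = (M : ℝ) ^ m * M * M := by rw [pow_succ, pow_succ]
    have hMp : (0 : ℝ) < (M : ℝ) ^ m := by positivity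
    rw [e2, e1]
    field_simp
  have hL : Tendsto (fun M : ℕ => (v - G M x y 0 / S M x y) * (P M x y / S M x y) -
      (Real.exp (v / (1 - G M x y 0 / S M x y)) - 1 - (v - G M x y 0 / S M x y) +
        G M x y 0 / S M x y)) atTop
      (𝓝 ((v - 0) * (Ap / B) - (Real.exp (v / (1 - 0)) - 1 - (v - 0) + 0))) := by
    have c1 : Tendsto (fun M : ℕ => v - G M x y 0 / S M x y) atTop (𝓝 (v - 0)) :=
      tendsto_const_nhds.sub q0
    have c2 : Tendsto (fun M : ℕ => v / (1 - G M x y 0 / S M x y)) atTop (𝓝 (v / (1 - 0))) :=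
      tendsto_const_nhds.div (tendsto_const_nhds.sub q0) (by norm_num)
    have c3 := (Real.continuous_exp.tendsto _).comp c2
    exact (c1.mul q1).sub (((c3.sub tendsto_const_nhds).sub c1).add q0)
  have hfin := le_of_tendsto_of_tendsto hL q2 (by
    filter_upwards [eventually_ge_atTop 1, q0.eventually (gt_mem_nhds (show (0 : ℝ) < 1 by norm_num))]
      with M hM he
    exact fin_main hM x y v hv he)
  have hf1 : ((m + 1).factorial : ℝ) = (m + 1) * (m.factorial : ℝ) := by
    rw [Nat.factorial_succ]; push_cast; ring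
  have hf2 : ((m + 1 + 1).factorial : ℝ) = (m + 2) * ((m + 1) * (m.factorial : ℝ)) := by
    rw [Nat.factorial_succ, Nat.factorial_succ]; push_cast; ring
  have hmf : (0 : ℝ) < (m.factorial : ℝ) := by positivity
  have e3 : A / (m.factorial : ℝ) / (B / ((m + 1).factorial : ℝ)) *
        (Tp x y / ((m + 1 + 1).factorial : ℝ)) / (B / ((m + 1).factorial : ℝ)) =
      A * Tp x y / B ^ 2 * ((m + 1) / (m + 2)) := by
    rw [hf2, hf1]
    field_simp
  rw [e3] at hfin
  simp only [sub_zero, div_one, add_zero] at hfin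
  have h9 : v * (Ap / B) - (Real.exp v - 1 - v) ≤ A * Tp x y / B ^ 2 * (((m : ℝ) + 1) / (m + 2)) := by
    linarith
  have h10 := mul_le_mul_of_nonneg_left h9 (show (0 : ℝ) ≤ B ^ 2 * ((m : ℝ) + 2) by positivity)
  have e4 : B ^ 2 * ((m : ℝ) + 2) * (v * (Ap / B) - (Real.exp v - 1 - v)) =
      B * (v * Ap - B * (Real.exp v - 1 - v)) * ((m : ℝ) + 2) := by
    field_simp
  have e5 : B ^ 2 * ((m : ℝ) + 2) * (A * Tp x y / B ^ 2 * (((m : ℝ) + 1) / (m + 2))) =
      A * Tp x y * (m + 1) := by field_simp
  rw [e4, e5] at h10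
  rw [hm]
  push_cast
  have e6 : (m : ℝ) + 1 + 1 = m + 2 := by ring
  rw [e6]
  exact h10

end Pool.Agent.R756.CH
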